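import Pool.Agent.MWS.StmtsA

/-!
# Row JPI of block MWS: join primality from invariant sets
-/

namespace Pool.Agent.MWS.H19

open Pool.Agent.Helper14_MV Pool.Agent.Helper2_MV Pool.Agent.MVO Pool.Agent.MWL Pool.Agent.MWS

theorem two01_sub {k : ℕ} {B B' : ℕ → List ℕ} (h : Two01 k B) (hs : Sub k B B') : Two01 k B' := by
  intro j hj c hc
  obtain ⟨i, hi, hci⟩ := hs c ⟨j, hj, hc⟩
  exact h i hi c hci

theorem jpi (h1 : ChnStmt) : JpiStmt := by
  intro β hβ k B0 B1 A hB0 hB1 hT hA0 hA1 hext hinv ρ σ hρ hσ hnρ hnσ hsup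
  by_contra hno
  rw [not_or] at hno
  obtain ⟨hno1, hno2⟩ := hno
  obtain ⟨B', hv, hB', hsub, hchain⟩ := h1 β ρ σ hβ hρ hσ hnρ hnσ k B0 (asm k B1) hB0 hsup
  have key : ∀ B : ℕ → List ℕ, Relation.ReflTransGen (StM ρ σ k) B0 B → Two01 k B ∧ A B := by
    intro B hB
    induction hB with
    | refl => exact ⟨hT, hA0⟩
    | tail _ hstep ih =>
      obtain ⟨hk1, hk2, hs, hr⟩ := hstep
      have ht := two01_sub ih.1 hs
      refine ⟨ht, ?_⟩
      rcases hr with hr | hr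
      · exact hinv ρ hρ hnρ hno1 _ _ hk1 hk2 ih.1 ht hr ih.2
      · exact hinv σ hσ hnσ hno2 _ _ hk1 hk2 ih.1 ht hr ih.2
  have h2 := key B' hchain
  have h3 := uniq hB1.ok hB'.ok hv
  exact hA1 (hext B' B1 (fun j hj => (h3 j hj).symm) h2.2)

end Pool.Agent.MWS.H19
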